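import Pool.Agent.Helper47.EP.Goals

/-!
# Packet EP-MB (MP_5b9a11_al): traces and stable equivalences
-/

set_option autoImplicit false

namespace Pool.Agent.Helper7.EP.MB

open IsLocalRing Pool.Agent.Helper47.EP

section ring

variable {A : Type} [Ring A]

/-- the relative trace -/
def tr (p : ℕ) (z a : A) : A := ∑ k ∈ Finset.range p, z ^ k * a * z ^ (p - k)

theorem mul_tr {p : ℕ} {z u : A} (h : Commute u z) (a : A) : u * tr p z a = tr p z (u * a) := by
  unfold tr
  rw [Finset.mul_sum]
  refine Finset.sum_congr rfl fun k _ => ?_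
  rw [← mul_assoc, ← mul_assoc, ← mul_assoc, (h.pow_right k).eq]

theorem tr_mul {p : ℕ} {z v : A} (h : Commute v z) (a : A) : tr p z a * v = tr p z (a * v) := by
  unfold tr
  rw [Finset.sum_mul]
  refine Finset.sum_congr rfl fun k _ => ?_
  rw [mul_assoc, ← (h.pow_right (p - k)).eq, ← mul_assoc, ← mul_assoc]

theorem tr_add {p : ℕ} {z : A} (a b : A) : tr p z (a + b) = tr p z a + tr p z b := by
  unfold tr
  rw [← Finset.sum_add_distrib]
  refine Finset.sum_congr rfl fun k _ => ?_
  rw [mul_add, add_mul]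

/-- If `P + Q = 1`, and `P π P` and `Q` are relative traces then so is `π`. -/
theorem tr_block {p : ℕ} {z P Q π B E : A} (hP : Commute P z) (hπ : Commute π z)
    (hPQ : P + Q = 1) (hB : tr p z B = P * π * P) (hE : tr p z E = Q) :
    π = tr p z (B + P * π * E + E * (π * P) + Q * π * E) := by
  have hQ : Commute Q z := by
    have : Q = 1 - P := by rw [← hPQ]; abel
    rw [this]
    exact (Commute.one_left z).sub_left hP
  rw [tr_add, tr_add, tr_add, hB, ← mul_tr (hP.mul_left hπ), ← tr_mul (hπ.mul_left hP),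
    ← mul_tr (hQ.mul_left hπ), hE]
  calc π = (P + Q) * π * (P + Q) := by rw [hPQ, one_mul, mul_one]
    _ = P * π * P + P * π * Q + Q * (π * P) + Q * π * Q := by noncomm_ring

theorem cpow {p : ℕ} {z : A} (hz : z ^ p = 1) {m n : ℕ} (h : (m : ZMod p) = n) :
    z ^ m = z ^ n := by
  rw [pow_eq_pow_mod m hz, pow_eq_pow_mod n hz, (ZMod.natCast_eq_natCast_iff' _ _ _).1 h]

end ring

theorem sum_val {p : ℕ} [NeZero p] {M : Type} [AddCommMonoid M] (F : ℕ → M) :
    ∑ k : ZMod p, F k.val = ∑ j ∈ Finset.range p, F j := by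
  refine Finset.sum_bij' (fun k _ => k.val) (fun j _ => (j : ZMod p)) ?_ ?_ ?_ ?_ ?_
  · intro k _
    exact Finset.mem_range.2 (ZMod.val_lt k)
  · intro j _
    exact Finset.mem_univ _
  · intro k _
    exact ZMod.natCast_zmod_val k
  · intro j hj
    exact ZMod.val_cast_of_lt (Finset.mem_range.1 hj)
  · intro k _
    rfl

section main

variable {p : ℕ} {R : Type} [CommRing R]

theorem prodMap_pow {Y F : Type} [AddCommGroup Y] [Module R Y] [AddCommGroup F] [Module R F]
    (f : Module.End R Y) (g : Module.End R F) (k : ℕ) :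
    (LinearMap.prodMap f g : Module.End R (Y × F)) ^ k = LinearMap.prodMap (f ^ k) (g ^ k) := by
  induction k with
  | zero =>
    ext <;> simp
  | succ k ih =>
    rw [pow_succ, ih]
    ext <;> simp [pow_succ]

variable {X : Type} [AddCommGroup X] [Module R X]

/-- the cyclic shift -/
def shift (p : ℕ) (R X : Type) [CommRing R] [AddCommGroup X] [Module R X] :
    Module.End R (ZMod p → X) where
  toFun f := fun k => f (k - 1)
  map_add' _ _ := rfl
  map_smul' _ _ := rfl

theorem shift_apply (f : ZMod p → X) (k : ZMod p) : shift p R X f k = f (k - 1) := rfl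

theorem shift_pow (m : ℕ) (f : ZMod p → X) (k : ZMod p) :
    (shift p R X ^ m) f k = f (k - m) := by
  induction m generalizing f k with
  | zero => simp
  | succ m ih =>
    rw [pow_succ, Module.End.mul_apply, ih, shift_apply]
    congr 1
    push_cast
    ring

theorem shift_pow_p : shift p R X ^ p = 1 := by
  ext f k
  simp [shift_pow]

/-- the projection to the component `0` -/
noncomputable def e0 (p : ℕ) (R X : Type) [CommRing R] [AddCommGroup X] [Module R X] :
    Module.End R (ZMod p → X) :=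
  LinearMap.single R (fun _ : ZMod p => X) 0 ∘ₗ LinearMap.proj 0

theorem e0_apply (f : ZMod p → X) (k : ZMod p) : e0 p R X f k = if k = 0 then f 0 else 0 := by
  simp only [e0, LinearMap.comp_apply, LinearMap.proj_apply, LinearMap.single_apply]
  by_cases h : k = 0
  · subst h
    simp
  · simp [h]

theorem tr_e0 [NeZero p] : tr p (shift p R X) (e0 p R X) = 1 := by
  refine LinearMap.ext fun f => ?_
  funext i
  unfold tr
  rw [LinearMap.sum_apply, Finset.sum_apply]
  rw [Finset.sum_eq_single i.val]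
  · rw [Module.End.mul_apply, Module.End.mul_apply, shift_pow, e0_apply, shift_pow,
      if_pos (by rw [ZMod.natCast_zmod_val, sub_self]), Nat.cast_sub (ZMod.val_lt i).le,
      ZMod.natCast_self, ZMod.natCast_zmod_val]
    simp
  · intro k hk hki
    rw [Module.End.mul_apply, Module.End.mul_apply, shift_pow, e0_apply, if_neg]
    intro h
    apply hki
    rw [← ZMod.val_cast_of_lt (Finset.mem_range.1 hk), sub_eq_zero.1 h]
  · intro h
    exact absurd (Finset.mem_range.2 (ZMod.val_lt i)) h

theorem trace_shift [NeZero p] (hp : 1 < p) [Module.Free R X] [Module.Finite R X] :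
    LinearMap.trace R (ZMod p → X) (shift p R X) = 0 := by
  have h1 : shift p R X = ∑ k : ZMod p, shift p R X ∘ₗ
      (LinearMap.single R (fun _ : ZMod p => X) k ∘ₗ LinearMap.proj k) := by
    refine LinearMap.ext fun f => ?_
    funext i
    rw [LinearMap.sum_apply, Finset.sum_apply]
    rw [Finset.sum_eq_single (i - 1)]
    · simp [shift_apply]
    · intro k _ hk
      simp only [LinearMap.comp_apply, LinearMap.proj_apply, LinearMap.single_apply, shift_apply]
      rw [Pi.single_eq_of_ne (Ne.symm hk)]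
    · intro h
      exact absurd (Finset.mem_univ _) h
  rw [h1, map_sum]
  apply Finset.sum_eq_zero
  intro k _
  have h2 : LinearMap.trace R (ZMod p → X) (shift p R X ∘ₗ
      (LinearMap.single R (fun _ : ZMod p => X) k ∘ₗ LinearMap.proj k)) =
      LinearMap.trace R X ((LinearMap.proj k : (ZMod p → X) →ₗ[R] X) ∘ₗ
        (shift p R X ∘ₗ LinearMap.single R (fun _ : ZMod p => X) k)) := by
    rw [← LinearMap.comp_assoc]
    exact LinearMap.trace_comp_comm' (R := R) (LinearMap.proj k : (ZMod p → X) →ₗ[R] X)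
      (shift p R X ∘ₗ LinearMap.single R (fun _ : ZMod p => X) k)
  rw [h2]
  have h3 : (LinearMap.proj k : (ZMod p → X) →ₗ[R] X) ∘ₗ
        (shift p R X ∘ₗ LinearMap.single R (fun _ : ZMod p => X) k) = 0 := by
    ext x
    simp only [LinearMap.comp_apply, LinearMap.proj_apply, LinearMap.single_apply, shift_apply]
    rw [Pi.single_eq_of_ne]
    · rfl
    · intro h
      have h' : (1 : ZMod p) = 0 := by
        have := sub_eq_self.1 h
        exact this
      have hf : Fact (1 < p) := ⟨hp⟩
      exact one_ne_zero h'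
  rw [h3, map_zero]

end main

/-- Packet MB. -/
theorem t (hMA : Pool.Agent.Helper47.EP.S_MA) : Pool.Agent.Helper47.EP.S_MB := by
  intro p _ R _ _ hpR X Y _ _ _ _ _ _ _ _ zX a zY b α β hzX hzY hα hβ ha hb
  have hp : p.Prime := Fact.out
  haveI : NeZero p := ⟨hp.ne_zero⟩
  haveI : Fact (1 < p) := ⟨hp.one_lt⟩
  -- the maps
  let s : X →ₗ[R] (ZMod p → X) := LinearMap.pi fun k => a * zX ^ (p - k.val)
  have hs : ∀ x k, s x k = a ((zX ^ (p - k.val)) x) := fun x k => rfl
  let tt : (ZMod p → X) →ₗ[R] X := ∑ k : ZMod p, (zX ^ k.val) ∘ₗ LinearMap.proj k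
  have htt : ∀ f, tt f = ∑ k : ZMod p, (zX ^ k.val) (f k) := by
    intro f
    simp [tt, LinearMap.sum_apply]
  have hts : ∀ x, tt (s x) = x - β (α x) := by
    intro x
    have h := LinearMap.congr_fun ha x
    rw [LinearMap.sum_apply] at h
    have h' : x - β (α x) = ∑ k ∈ Finset.range p, (zX ^ k * a * zX ^ (p - k)) x := h
    rw [h', htt, ← sum_val (fun k => (zX ^ k * a * zX ^ (p - k)) x)]
    rfl
  have hszX : ∀ x, s (zX x) = shift p R X (s x) := by
    intro x
    funext k
    rw [shift_apply, hs, hs]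
    have h : zX ^ (p - k.val + 1) = zX ^ (p - (k - 1).val) := by
      apply cpow hzX
      rw [Nat.cast_add, Nat.cast_sub (ZMod.val_lt k).le, Nat.cast_sub (ZMod.val_lt (k - 1)).le,
        ZMod.natCast_zmod_val, ZMod.natCast_zmod_val]
      push_cast
      ring
    rw [← h, pow_succ, Module.End.mul_apply]
  have htz : ∀ f, tt (shift p R X f) = zX (tt f) := by
    intro f
    rw [htt, htt, map_sum, ← Equiv.sum_comp (Equiv.addRight (1 : ZMod p))]
    refine Finset.sum_congr rfl fun k _ => ?_
    simp only [Equiv.coe_addRight, shift_apply, add_sub_cancel_right]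
    have h : zX ^ (k + 1).val = zX ^ (k.val + 1) := by
      apply cpow hzX
      rw [Nat.cast_add, ZMod.natCast_zmod_val, ZMod.natCast_zmod_val]
      push_cast
      ring
    rw [h, pow_succ', Module.End.mul_apply]
  have hα' : ∀ x, zY (α x) = α (zX x) := fun x => LinearMap.congr_fun hα x
  have hβ' : ∀ y, zX (β y) = β (zY y) := fun y => LinearMap.congr_fun hβ y
  -- the module `Z`
  let zZ : Module.End R (Y × (ZMod p → X)) := LinearMap.prodMap zY (shift p R X)
  let σ : X →ₗ[R] Y × (ZMod p → X) := LinearMap.prod α s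
  let τ : Y × (ZMod p → X) →ₗ[R] X := LinearMap.coprod β tt
  have hτσ : τ ∘ₗ σ = LinearMap.id := by
    ext x
    show β (α x) + tt (s x) = x
    rw [hts]
    abel
  have hσz : zZ ∘ₗ σ = σ ∘ₗ zX := by
    refine LinearMap.ext fun x => ?_
    show (zY (α x), shift p R X (s x)) = (α (zX x), s (zX x))
    rw [hα', hszX]
  have hτz : zX ∘ₗ τ = τ ∘ₗ zZ := by
    refine LinearMap.ext fun y => ?_
    show zX (β y.1 + tt y.2) = β (zY y.1) + tt (shift p R X y.2)
    rw [map_add, hβ', htz]
  let π : Module.End R (Y × (ZMod p → X)) := 1 - σ ∘ₗ τ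
  have hππ : π * π = π := by
    have h1 : (σ ∘ₗ τ : Module.End R (Y × (ZMod p → X))) * (σ ∘ₗ τ) = σ ∘ₗ τ := by
      show (σ ∘ₗ τ) ∘ₗ (σ ∘ₗ τ) = σ ∘ₗ τ
      rw [LinearMap.comp_assoc, ← LinearMap.comp_assoc τ σ τ, hτσ, LinearMap.id_comp]
    show (1 - σ ∘ₗ τ : Module.End R (Y × (ZMod p → X))) * (1 - σ ∘ₗ τ) = 1 - σ ∘ₗ τ
    rw [mul_sub, sub_mul, sub_mul, h1]
    simp
  have hπz : Commute π zZ := by
    have h1 : Commute (σ ∘ₗ τ : Module.End R (Y × (ZMod p → X))) zZ := by
      show (σ ∘ₗ τ) ∘ₗ zZ = zZ ∘ₗ (σ ∘ₗ τ)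
      rw [LinearMap.comp_assoc, ← hτz, ← LinearMap.comp_assoc, ← LinearMap.comp_assoc, hσz]
    exact (Commute.one_left zZ).sub_left h1
  -- `π` is a relative trace
  let P : Module.End R (Y × (ZMod p → X)) := LinearMap.inl R Y _ ∘ₗ LinearMap.fst R Y _
  let Q : Module.End R (Y × (ZMod p → X)) := LinearMap.inr R Y _ ∘ₗ LinearMap.snd R Y _
  have hPQ : P + Q = 1 := by
    refine LinearMap.ext fun y => ?_
    show (y.1, (0 : ZMod p → X)) + ((0 : Y), y.2) = y
    simp
  have hPz : Commute P zZ := by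
    refine LinearMap.ext fun y => ?_
    show (zY y.1, (0 : ZMod p → X)) = (zY y.1, shift p R X 0)
    rw [map_zero]
  have hzZk : ∀ (k : ℕ) (y : Y × (ZMod p → X)), (zZ ^ k) y =
      ((zY ^ k) y.1, (shift p R X ^ k) y.2) := by
    intro k y
    show ((LinearMap.prodMap zY (shift p R X) : Module.End R (Y × (ZMod p → X))) ^ k) y = _
    rw [prodMap_pow]
    rfl
  let B : Module.End R (Y × (ZMod p → X)) :=
    LinearMap.inl R Y _ ∘ₗ b ∘ₗ LinearMap.fst R Y _
  let E : Module.End R (Y × (ZMod p → X)) :=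
    LinearMap.inr R Y _ ∘ₗ e0 p R X ∘ₗ LinearMap.snd R Y _
  have hB : tr p zZ B = P * π * P := by
    refine LinearMap.ext fun y => ?_
    have h1 : (P * π * P) y = (y.1 - α (β y.1), 0) := by
      have h2 : τ (y.1, (0 : ZMod p → X)) = β y.1 := by
        show β y.1 + tt 0 = β y.1
        rw [map_zero, add_zero]
      have h3 : (P * π * P) y = P ((y.1, (0 : ZMod p → X)) - σ (τ (y.1, (0 : ZMod p → X)))) := rfl
      rw [h3, h2]
      rfl
    rw [h1]
    unfold tr
    rw [LinearMap.sum_apply]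
    have h4 : ∀ k ∈ Finset.range p, (zZ ^ k * B * zZ ^ (p - k)) y =
        ((zY ^ k * b * zY ^ (p - k)) y.1, (0 : ZMod p → X)) := by
      intro k _
      rw [Module.End.mul_apply, Module.End.mul_apply, hzZk (p - k) y]
      have h5 : (zZ ^ k) (B ((zY ^ (p - k)) y.1, (shift p R X ^ (p - k)) y.2)) =
          (zZ ^ k) (b ((zY ^ (p - k)) y.1), (0 : ZMod p → X)) := rfl
      rw [h5, hzZk]
      simp [Module.End.mul_apply]
    rw [Finset.sum_congr rfl h4]
    have h6 := LinearMap.congr_fun hb y.1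
    rw [LinearMap.sum_apply] at h6
    have h7 : y.1 - α (β y.1) = ∑ k ∈ Finset.range p, (zY ^ k * b * zY ^ (p - k)) y.1 := h6
    rw [h7]
    ext1
    · rw [Prod.fst_sum]
    · rw [Prod.snd_sum]
      simp
  have hE : tr p zZ E = Q := by
    refine LinearMap.ext fun y => ?_
    unfold tr
    rw [LinearMap.sum_apply]
    have h4 : ∀ k ∈ Finset.range p, (zZ ^ k * E * zZ ^ (p - k)) y =
        ((0 : Y), (shift p R X ^ k * e0 p R X * shift p R X ^ (p - k)) y.2) := by
      intro k _
      rw [Module.End.mul_apply, Module.End.mul_apply, hzZk (p - k) y]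
      have h5 : (zZ ^ k) (E ((zY ^ (p - k)) y.1, (shift p R X ^ (p - k)) y.2)) =
          (zZ ^ k) ((0 : Y), e0 p R X ((shift p R X ^ (p - k)) y.2)) := rfl
      rw [h5, hzZk]
      simp [Module.End.mul_apply]
    rw [Finset.sum_congr rfl h4]
    have h6 := LinearMap.congr_fun (tr_e0 (p := p) (R := R) (X := X)) y.2
    unfold tr at h6
    rw [LinearMap.sum_apply] at h6
    have h7 : Q y = ((0 : Y), y.2) := rfl
    rw [h7]
    ext1
    · rw [Prod.fst_sum]
      simp
    · rw [Prod.snd_sum]
      exact h6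
  obtain ⟨c, hc⟩ : ∃ c, π = tr p zZ c := ⟨_, tr_block hPz hπz hPQ hB hE⟩
  -- the range of `π`
  let C := LinearMap.range π
  let ι : C →ₗ[R] Y × (ZMod p → X) := C.subtype
  let π' : Y × (ZMod p → X) →ₗ[R] C := π.rangeRestrict
  have hιπ : ι ∘ₗ π' = π := rfl
  have hπι : π' ∘ₗ ι = LinearMap.id := by
    refine LinearMap.ext fun x => ?_
    obtain ⟨_, y, rfl⟩ := x
    apply Subtype.ext
    show (π * π) y = π y
    rw [hππ]
  haveI : Module.Finite R C := Module.Finite.range π
  haveI : Module.Projective R C := Module.Projective.of_split ι π' hπι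
  haveI : Module.Free R C := Module.free_of_flat_of_isLocalRing
  let zC : Module.End R C := π' ∘ₗ zZ ∘ₗ ι
  let aC : Module.End R C := π' ∘ₗ c ∘ₗ ι
  have hιinj : Function.Injective ι := Subtype.val_injective
  have hπιx : ∀ x : C, π (ι x) = ι x := by
    intro x
    have h := LinearMap.congr_fun hπι x
    have h' : ι (π' (ι x)) = ι x := congrArg ι h
    exact h'
  have hιz : ∀ x : C, ι (zC x) = zZ (ι x) := by
    intro x
    show π (zZ (ι x)) = zZ (ι x)
    have h := LinearMap.congr_fun hπz.eq (ι x)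
    have h' : π (zZ (ι x)) = zZ (π (ι x)) := h
    rw [h', hπιx]
  have hιzk : ∀ (k : ℕ) (x : C), ι ((zC ^ k) x) = (zZ ^ k) (ι x) := by
    intro k
    induction k with
    | zero => intro x; rfl
    | succ k ih =>
      intro x
      rw [pow_succ, Module.End.mul_apply, ih, hιz, pow_succ, Module.End.mul_apply]
  have hzZp : zZ ^ p = 1 := by
    refine LinearMap.ext fun y => ?_
    rw [hzZk, hzY, shift_pow_p]
    rfl
  have hzC : zC ^ p = 1 := by
    refine LinearMap.ext fun x => ?_
    apply hιinj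
    rw [hιzk, hzZp]
    rfl
  have hzC0 : LinearMap.trace R C zC = 0 := by
    refine hMA p R hpR C zC aC hzC ?_
    refine LinearMap.ext fun x => ?_
    apply hιinj
    rw [LinearMap.sum_apply, map_sum]
    have h1 : ∀ k ∈ Finset.range p, ι ((zC ^ k * aC * zC ^ (p - k)) x) =
        (zZ ^ k * (π * c) * zZ ^ (p - k)) (ι x) := by
      intro k _
      rw [Module.End.mul_apply, Module.End.mul_apply, hιzk]
      have h2 : ι (aC ((zC ^ (p - k)) x)) = (π * c) (ι ((zC ^ (p - k)) x)) := rfl
      rw [h2, hιzk]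
      rfl
    rw [Finset.sum_congr rfl h1]
    have h3 : ∑ k ∈ Finset.range p, (zZ ^ k * (π * c) * zZ ^ (p - k)) = π := by
      have h4 := mul_tr hπz c (p := p)
      rw [← hc, hππ] at h4
      exact h4.symm
    rw [← LinearMap.sum_apply, h3, hπιx]
    rfl
  -- the traces
  have htr1 : LinearMap.trace R _ zZ = LinearMap.trace R Y zY := by
    have h := LinearMap.trace_prodMap' (R := R) zY (shift p R X)
    rw [trace_shift hp.one_lt, add_zero] at h
    exact h
  have htr2 : LinearMap.trace R _ zZ = LinearMap.trace R X zX := by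
    have h1 : zZ = zZ ∘ₗ (σ ∘ₗ τ) + ι ∘ₗ (zC ∘ₗ π') := by
      refine LinearMap.ext fun y => ?_
      have h2 : ι (zC (π' y)) = zZ (π y) := hιz (π' y)
      have h3 : π y = y - σ (τ y) := rfl
      show zZ y = zZ (σ (τ y)) + ι (zC (π' y))
      rw [h2, h3, map_sub]
      abel
    have h4 : LinearMap.trace R _ (zZ ∘ₗ (σ ∘ₗ τ)) = LinearMap.trace R X zX := by
      rw [← LinearMap.comp_assoc, hσz, LinearMap.comp_assoc,
        LinearMap.trace_comp_comm' (R := R) (zX ∘ₗ τ) σ, LinearMap.comp_assoc, hτσ,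
        LinearMap.comp_id]
    have h5 : LinearMap.trace R _ (ι ∘ₗ (zC ∘ₗ π')) = 0 := by
      rw [LinearMap.trace_comp_comm' (R := R) (zC ∘ₗ π') ι, LinearMap.comp_assoc, hπι,
        LinearMap.comp_id, hzC0]
    rw [h1, map_add, h4, h5, add_zero]
  rw [← htr2, htr1]

end Pool.Agent.Helper7.EP.MB
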